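import Pool.Agent.Helper27.CK.Near
import Pool.Agent.Helper52.CK.Defs

/-!
Project CK: the interface NEAR of `Helper52.CK.Defs`.
-/

set_option autoImplicit false

open Complex MeasureTheory Metric Set Filter Topology
open scoped Real ComplexConjugate

namespace Pool.Agent.Helper27.CK

open Pool.Agent.Helper39.Area Pool.Agent.Helper5.CK
open Pool.Agent.Helper52.EK hiding Rect
open Pool.Agent.Helper14.CK

/-- iterated integral, inner variable `θ`, complex valued -/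
theorem rect_eqC {a b : ℝ} (hab : a ≤ b) {f : ℝ × ℝ → ℂ} (hf : ContinuousOn f (Rect a b)) :
    ∫ p in Rect a b, f p = ∫ x in a..b, ∫ θ in (-π)..π, f (x, θ) := by
  have hπ : -π ≤ π := by linarith [Real.pi_pos]
  have h1 := integrableOn_rectC hf
  rw [Measure.volume_eq_prod] at h1 ⊢
  rw [Rect, setIntegral_prod _ h1, intervalIntegral.integral_of_le hab,
    integral_Icc_eq_integral_Ioc]
  refine setIntegral_congr_fun measurableSet_Ioc fun x _ => ?_
  show ∫ y in Icc (-π) π, f (x, y) = ∫ θ in (-π)..π, f (x, θ)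
  rw [intervalIntegral.integral_of_le hπ, integral_Icc_eq_integral_Ioc]

theorem wt_of {om om' u u' : ℝ → ℝ} {a b : ℝ} (W : Pool.Agent.Helper52.CK.Wt om om' u u' a b) :
    Wt2 om om' a b u u' := by
  refine ⟨W.a0, W.ab, W.dom, W.com, ?_, ?_, W.om0, W.du, W.cu, ?_, W.u0⟩
  · exact W.omz a fun h => lt_irrefl _ h.1
  · exact W.omz b fun h => lt_irrefl _ h.2
  · have h := W.up (-π)
    rw [show -π + 2 * π = π by ring] at h
    exact h.symm

theorem JJ_eq {om om' u u' : ℝ → ℝ} {a b : ℝ} (W : Wt2 om om' a b u u') {β : ℂ → ℂ}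
    (h : Ext β) (κ : ℝ) : Pool.Agent.Helper52.CK.JJ κ om u a b β = J κ om u a b β := by
  unfold J
  have hc : ContinuousOn (fun p : ℝ × ℝ => om p.1 * u p.2 * FF κ β p) (Rect a b) :=
    (cW W).mul (cFF h W.a_pos κ)
  rw [rect_eq W.a_lt.le hc]
  rfl

theorem EE_eq {om om' u u' : ℝ → ℝ} {a b : ℝ} (W : Wt2 om om' a b u u') {β : ℂ → ℂ} {z0 : ℂ}
    (h : Geo a b β z0) (κ : ℝ) :
    Pool.Agent.Helper52.CK.EE κ om om' u u' a b β z0 = EE κ om om' u u' a b β z0 := by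
  unfold EE
  rw [rect_eqC W.a_lt.le (h.c_EE W)]
  unfold Pool.Agent.Helper52.CK.EE
  congr 1
  funext x
  congr 1
  funext θ
  have e0 : ((Pool.Agent.Helper52.CK.FF κ β x θ : ℝ) : ℂ) = ((FF κ β (x, θ) : ℝ) : ℂ) := rfl
  rw [e0]
  congr 1
  unfold body
  simp only
  have e1 : 4 * z0 ^ 2 * Pool.Agent.Helper52.CK.kA β (ep (-x) θ) z0 =
      z0 ^ 2 * dphi β z0 ^ 2 / (phi β (ep (-x) θ) - phi β z0) ^ 2 := by
    unfold Pool.Agent.Helper52.CK.kA
    have : (phi β (ep (-x) θ) - phi β z0) ^ 2 = (phi β z0 - phi β (ep (-x) θ)) ^ 2 := by ring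
    rw [this]
    generalize phi β z0 - phi β (ep (-x) θ) = X
    rw [div_pow, mul_pow]
    by_cases hX : X = 0
    · rw [hX]; simp
    · field_simp
      ring
  have e3 : Pool.Agent.Helper52.CK.k3 (ep (-x) θ) z0 = k3 z0 (ep (-x) θ) := by
    unfold Pool.Agent.Helper52.CK.k3 k3
    push_cast
    ring
  have e4 : Pool.Agent.Helper52.CK.k1 (ep (-x) θ) z0 = k4 z0 (ep (-x) θ) := rfl
  have e5 : Pool.Agent.Helper52.CK.k5 (ep (-x) θ) z0 = I / 2 * k5 z0 (ep (-x) θ) := rfl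
  rw [e1, e3, e4, e5]
  push_cast
  ring

/-- **NEAR** -/
theorem nearStmt (hV : Variation) {κ : ℝ} (hκ : 0 ≤ κ) : Pool.Agent.Helper52.CK.NearStmt κ := by
  intro om om' u u' a b W _ _ η hη
  have W2 := wt_of W
  obtain ⟨β, R, hβ, h1, h2⟩ := near hV hκ W2 hη
  refine ⟨β, R, hβ, ?_, ?_⟩
  · intro γ hγ
    rw [JJ_eq W2 hγ, JJ_eq W2 hβ.toExt]
    exact h1 γ hγ
  · intro z0 hz hz'
    have hg : Geo a b β z0 := by
      refine ⟨hβ.toExt, W.a0, norm_pos_iff.mp ((Real.exp_pos _).trans_le hz), ?_, W.ab.le⟩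
      refine hz'.trans_lt (Real.exp_lt_exp.mpr ?_)
      linarith [W.a0, W.ab]
    rw [EE_eq W2 hg]
    exact h2 z0 hz hz'

end Pool.Agent.Helper27.CK
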