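import Mathlib

/-!
Project CK, module L4: expansion of the weighted area functional
`J(f) = ∬ |f'|^{-κ} W(1-|z|²)` under an interior variation `F ∘ ψ_t = G_t ∘ f`.
Weight `W(y) = y^a (y+δ)^{-η}`.
-/

open MeasureTheory Set Filter Topology

namespace Pool.Agent.Helper27.CK

noncomputable section

/-- the two-exponent weight -/
def W (a η δ y : ℝ) : ℝ := y ^ a * (y + δ) ^ (-η)

/-- logarithmic derivative `y W'/W` -/
def sW (a η δ y : ℝ) : ℝ := a - η * (y / (y + δ))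

lemma W_pos {a η δ y : ℝ} (hδ : 0 ≤ δ) (hy : 0 < y) : 0 < W a η δ y :=
  mul_pos (Real.rpow_pos_of_pos hy _) (Real.rpow_pos_of_pos (by linarith) _)

lemma log_W {a η δ y : ℝ} (hδ : 0 ≤ δ) (hy : 0 < y) :
    Real.log (W a η δ y) = a * Real.log y - η * Real.log (y + δ) := by
  have h1 : (0 : ℝ) < y + δ := by linarith
  unfold W
  rw [Real.log_mul (Real.rpow_pos_of_pos hy _).ne' (Real.rpow_pos_of_pos h1 _).ne',
    Real.log_rpow hy, Real.log_rpow h1]
  ring

/-- `log ‖1+z‖ = Re z + O(‖z‖²)` -/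
lemma log_norm_one_add {z : ℂ} (hz : ‖z‖ ≤ 1 / 2) :
    |Real.log ‖1 + z‖ - z.re| ≤ ‖z‖ ^ 2 := by
  have h1 : ‖z‖ < 1 := by linarith
  have h2 := Complex.norm_log_one_add_sub_self_le h1
  have h3 : Real.log ‖1 + z‖ - z.re = (Complex.log (1 + z) - z).re := by
    rw [Complex.sub_re, Complex.log_re]
  rw [h3]
  refine (Complex.abs_re_le_norm _).trans (h2.trans ?_)
  have h4 : (1 - ‖z‖)⁻¹ ≤ 2 := by
    rw [inv_le_comm₀ (by linarith) (by norm_num)]
    linarith
  have h5 : (0 : ℝ) ≤ ‖z‖ ^ 2 := by positivity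
  nlinarith

/-- `log(1+x) = x + O(x²)` -/
lemma log_one_add {x : ℝ} (hx : |x| ≤ 1 / 2) : |Real.log (1 + x) - x| ≤ x ^ 2 := by
  have h := log_norm_one_add (z := (x : ℂ)) (by simpa using hx)
  have h1 : ‖(1 : ℂ) + (x : ℂ)‖ = 1 + x := by
    have : (1 : ℂ) + (x : ℂ) = ((1 + x : ℝ) : ℂ) := by push_cast; ring
    rw [this, Complex.norm_real, Real.norm_eq_abs, abs_of_nonneg]
    rcases abs_le.mp hx with ⟨h1, _⟩
    linarith
  rw [h1] at h
  simpa using h

/-- if `z = t u + O(t²)` then `log ‖1+z‖ = t Re u + O(t²)` -/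
lemma log_norm_expand {C t : ℝ} {z u : ℂ} (hC : 0 ≤ C) (hu : ‖u‖ ≤ C)
    (hz : ‖z - 1 - t * u‖ ≤ C * t ^ 2) (ht : |t| ≤ 1) (htC : 4 * (C + 1) * |t| ≤ 1) :
    |Real.log ‖z‖ - t * u.re| ≤ (C + 4 * C ^ 2) * t ^ 2 := by
  have ht2 : t ^ 2 = |t| ^ 2 := (sq_abs t).symm
  have ht0 := abs_nonneg t
  have h1 : ‖z - 1‖ ≤ 2 * C * |t| := by
    have : z - 1 = (z - 1 - t * u) + t * u := by ring
    rw [this]
    refine (norm_add_le _ _).trans ?_
    rw [norm_mul, Complex.norm_real, Real.norm_eq_abs]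
    have : C * t ^ 2 ≤ C * |t| := by
      rw [ht2]
      nlinarith [mul_nonneg hC ht0]
    nlinarith [mul_le_mul_of_nonneg_left hu ht0]
  have h2 : ‖z - 1‖ ≤ 1 / 2 := by
    refine h1.trans ?_
    nlinarith
  have h3 := log_norm_one_add h2
  have h4 : (1 : ℂ) + (z - 1) = z := by ring
  rw [h4] at h3
  have h5 : |(z - 1).re - t * u.re| ≤ C * t ^ 2 := by
    have : (z - 1).re - t * u.re = (z - 1 - t * u).re := by simp
    rw [this]
    exact (Complex.abs_re_le_norm _).trans hz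
  have h6 : ‖z - 1‖ ^ 2 ≤ 4 * C ^ 2 * t ^ 2 := by
    rw [ht2]
    calc ‖z - 1‖ ^ 2 ≤ (2 * C * |t|) ^ 2 := by gcongr
      _ = _ := by ring
  calc |Real.log ‖z‖ - t * u.re| = |(Real.log ‖z‖ - (z - 1).re) + ((z - 1).re - t * u.re)| := by
        congr 1; ring
    _ ≤ _ := (abs_add_le _ _).trans (by linarith)

/-- real version -/
lemma log_expand {C t x m : ℝ} (hC : 0 ≤ C) (hm : |m| ≤ C)
    (hx : |x - 1 - t * m| ≤ C * t ^ 2) (ht : |t| ≤ 1) (htC : 4 * (C + 1) * |t| ≤ 1) :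
    |Real.log x - t * m| ≤ (C + 4 * C ^ 2) * t ^ 2 := by
  have ht2 : t ^ 2 = |t| ^ 2 := (sq_abs t).symm
  have ht0 := abs_nonneg t
  have h1 : |x - 1| ≤ 2 * C * |t| := by
    have : x - 1 = (x - 1 - t * m) + t * m := by ring
    rw [this]
    refine (abs_add_le _ _).trans ?_
    rw [abs_mul]
    have : C * t ^ 2 ≤ C * |t| := by
      rw [ht2]
      nlinarith [mul_nonneg hC ht0]
    nlinarith [mul_le_mul_of_nonneg_left hm ht0]
  have h2 : |x - 1| ≤ 1 / 2 := by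
    refine h1.trans ?_
    nlinarith
  have h3 := log_one_add h2
  have h4 : (1 : ℝ) + (x - 1) = x := by ring
  rw [h4] at h3
  have h6 : (x - 1) ^ 2 ≤ 4 * C ^ 2 * t ^ 2 := by
    rw [ht2, ← sq_abs (x - 1)]
    calc |x - 1| ^ 2 ≤ (2 * C * |t|) ^ 2 := by gcongr
      _ = _ := by ring
  calc |Real.log x - t * m| = |(Real.log x - (x - 1)) + (x - 1 - t * m)| := by
        congr 1; ring
    _ ≤ _ := (abs_add_le _ _).trans (by linarith)

/-- expansion of the logarithm of the weight -/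
lemma logW_expand {a η δ C t y y' m : ℝ} (hδ : 0 ≤ δ) (hy : 0 < y) (hC : 0 ≤ C) (hm : |m| ≤ C)
    (hy' : |y' - y * (1 + t * m)| ≤ C * t ^ 2 * y) (ht : |t| ≤ 1)
    (htC : 4 * (C + 1) * |t| ≤ 1) :
    |Real.log (W a η δ y') - Real.log (W a η δ y) - t * (sW a η δ y * m)| ≤
      (|a| + |η|) * (C + 4 * C ^ 2) * t ^ 2 := by
  have hyδ : 0 < y + δ := by linarith
  -- ratio
  have h1 : |y' / y - 1 - t * m| ≤ C * t ^ 2 := by
    have : y' / y - 1 - t * m = (y' - y * (1 + t * m)) / y := by field_simp; ring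
    rw [this, abs_div, abs_of_pos hy, div_le_iff₀ hy]
    exact hy'
  have h2 := log_expand hC hm h1 ht htC
  set θ := y / (y + δ) with hθ
  have hθ0 : 0 ≤ θ := by positivity
  have hθ1 : θ ≤ 1 := by
    rw [hθ, div_le_one hyδ]
    linarith
  have h3 : |(y' + δ) / (y + δ) - 1 - t * (θ * m)| ≤ C * t ^ 2 := by
    have : (y' + δ) / (y + δ) - 1 - t * (θ * m) = θ * (y' / y - 1 - t * m) := by
      rw [hθ]; field_simp; ring
    rw [this, abs_mul, abs_of_nonneg hθ0]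
    calc θ * |y' / y - 1 - t * m| ≤ 1 * (C * t ^ 2) := by gcongr
      _ = _ := one_mul _
  have hθm : |θ * m| ≤ C := by
    rw [abs_mul, abs_of_nonneg hθ0]
    calc θ * |m| ≤ 1 * C := by gcongr
      _ = C := one_mul _
  have h4 := log_expand hC hθm h3 ht htC
  -- positivity of y'
  have hy'0 : 0 < y' := by
    have ht2 : t ^ 2 = |t| ^ 2 := (sq_abs t).symm
    have ht0 := abs_nonneg t
    have h5 : |y' / y - 1| ≤ 1 / 2 := by
      have : y' / y - 1 = (y' / y - 1 - t * m) + t * m := by ring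
      rw [this]
      refine (abs_add_le _ _).trans ?_
      rw [abs_mul]
      have : C * t ^ 2 ≤ C * |t| := by
        rw [ht2]
        nlinarith [mul_nonneg hC ht0]
      nlinarith [mul_le_mul_of_nonneg_left hm ht0]
    have h6 : 0 < y' / y := by
      rcases abs_le.mp h5 with ⟨h7, _⟩
      linarith
    exact (div_pos_iff_of_pos_right hy).mp h6
  have hy'δ : 0 < y' + δ := by linarith
  rw [log_W hδ hy'0, log_W hδ hy]
  rw [Real.log_div hy'0.ne' hy.ne'] at h2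
  rw [Real.log_div hy'δ.ne' hyδ.ne'] at h4
  have e : a * Real.log y' - η * Real.log (y' + δ) - (a * Real.log y - η * Real.log (y + δ)) -
      t * (sW a η δ y * m) =
      a * (Real.log y' - Real.log y - t * m) -
        η * (Real.log (y' + δ) - Real.log (y + δ) - t * (θ * m)) := by
    unfold sW
    rw [← hθ]
    ring
  rw [e]
  refine (abs_sub _ _).trans ?_
  rw [abs_mul, abs_mul]
  have h7 := mul_le_mul_of_nonneg_left h2 (abs_nonneg a)
  have h8 := mul_le_mul_of_nonneg_left h4 (abs_nonneg η)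
  nlinarith

/-- exponential form: `exp S = 1 + t a + O(t²)` -/
lemma exp_expand {C t S a : ℝ} (hC : 0 ≤ C) (ha : |a| ≤ C) (hS : |S - t * a| ≤ C * t ^ 2)
    (ht : |t| ≤ 1) (htC : 4 * (C + 1) * |t| ≤ 1) :
    |Real.exp S - 1 - t * a| ≤ (C + 4 * C ^ 2) * t ^ 2 := by
  have ht2 : t ^ 2 = |t| ^ 2 := (sq_abs t).symm
  have ht0 := abs_nonneg t
  have h1 : |S| ≤ 2 * C * |t| := by
    have : S = (S - t * a) + t * a := by ring
    rw [this]
    refine (abs_add_le _ _).trans ?_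
    rw [abs_mul]
    have : C * t ^ 2 ≤ C * |t| := by
      rw [ht2]
      nlinarith [mul_nonneg hC ht0]
    nlinarith [mul_le_mul_of_nonneg_left ha ht0]
  have h2 : |S| ≤ 1 := by nlinarith
  have h3 := Real.abs_exp_sub_one_sub_id_le h2
  have h4 : S ^ 2 ≤ 4 * C ^ 2 * t ^ 2 := by
    rw [ht2, ← sq_abs S]
    calc |S| ^ 2 ≤ (2 * C * |t|) ^ 2 := by gcongr
      _ = _ := by ring
  calc |Real.exp S - 1 - t * a| = |(Real.exp S - 1 - S) + (S - t * a)| := by congr 1; ring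
    _ ≤ _ := (abs_add_le _ _).trans (by linarith)

end

end Pool.Agent.Helper27.CK
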