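import Pool.Agent.Helper5.CK.Defs
import Pool.Agent.Helper43.CK.Cls
import Pool.Agent.Helper39.EK.E1a
import Pool.Agent.Helper27.CK.Jexp

/-!
Project CK: the relative first variation `δN / N` of `N β` under the interior variation of
`Helper5.CK.Variation`, its uniform bound, and the expansion of `‖N‖ ^ (-κ)`.
-/

set_option autoImplicit false

open Complex MeasureTheory Metric Set Filter Topology
open scoped Real ComplexConjugate

namespace Pool.Agent.Helper27.CK

open Pool.Agent.Helper39.Area Pool.Agent.Helper52.EK Pool.Agent.Helper5.CK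

noncomputable section

/-- derivative of `hh` -/
def hd (p τ z : ℂ) : ℂ :=
  -(τ * (p / (z - p) ^ 2)) - conj τ * (conj p / (1 - conj p * z) ^ 2)

theorem hasDerivAt_hh {p τ z : ℂ} (h1 : z ≠ p) (h2 : conj p * z ≠ 1) :
    HasDerivAt (hh p τ) (hd p τ z) z := by
  have e1 : z - p ≠ 0 := sub_ne_zero.mpr h1
  have e2 : 1 - conj p * z ≠ 0 := sub_ne_zero.mpr (Ne.symm h2)
  have d1 : HasDerivAt (fun z : ℂ => (z + p) / (z - p)) ((1 * (z - p) - (z + p) * 1) / (z - p) ^ 2) z :=
    ((hasDerivAt_id z).add_const p).div ((hasDerivAt_id z).sub_const p) e1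
  have d2' : HasDerivAt (fun z : ℂ => conj p * z) (conj p) z := by
    simpa using (hasDerivAt_id z).const_mul (conj p)
  have d2 : HasDerivAt (fun z : ℂ => (1 + conj p * z) / (1 - conj p * z))
      ((conj p * (1 - conj p * z) - (1 + conj p * z) * (-conj p)) / (1 - conj p * z) ^ 2) z :=
    (d2'.const_add 1).div (d2'.const_sub 1) e2
  have d3 := ((d1.const_mul τ).sub (d2.const_mul (conj τ))).const_mul (1 / 2)
  have d4 := d3.congr_deriv (g' := hd p τ z) (by
    unfold hd
    field_simp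
    ring)
  exact d4

/-- the relative variation `δN/N` -/
def dl (β : ℂ → ℂ) (p τ z : ℂ) : ℂ :=
  -(eps β p τ / (phi β z - phi β p) ^ 2) + hh p τ z * (z * deriv (N β) z / N β z) - hh p τ z +
    z * hd p τ z - (τ.re : ℂ)

theorem dl_smul (β : ℂ → ℂ) (p B z : ℂ) (t : ℝ) : dl β p (t * B) z = t * dl β p B z := by
  unfold dl
  rw [hh_smul]
  have e1 : eps β p (t * B) = t * eps β p B := by unfold eps; ring
  have e2 : hd p (t * B) z = t * hd p B z := by
    unfold hd
    rw [map_mul, Complex.conj_ofReal]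
    ring
  have e3 : (((t : ℂ) * B).re : ℂ) = t * (B.re : ℂ) := by
    rw [Complex.re_ofReal_mul]
    push_cast
    ring
  rw [e1, e2, e3]
  ring

theorem N_eq_dphi {β : ℂ → ℂ} {z : ℂ} (hz : z ≠ 0) : N β z = -z ^ 2 * dphi β z := by
  unfold N dphi
  field_simp
  ring

/-- the variation of `N` -/
theorem deriv_VV {β : ℂ → ℂ} (h : Ext β) {p τ z : ℂ} (hp : p ∈ ball (0:ℂ) 1) (hp0 : p ≠ 0)
    (hz : z ∈ ball (0:ℂ) 1) (hz0 : z ≠ 0) (hzp : z ≠ p) :
    -z ^ 2 * deriv (fun z => VV β p τ z - (τ.re : ℂ) * phi β z) z = N β z * dl β p τ z := by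
  have hN : N β z ≠ 0 := h.ne z hz
  have hne : phi β z - phi β p ≠ 0 := by
    intro h1
    exact hzp (h.inj z p hz hp hz0 hp0 (sub_eq_zero.mp h1))
  have hc : conj p * z ≠ 1 := by
    intro h1
    have h2 : ‖conj p * z‖ = 1 := by rw [h1, norm_one]
    rw [norm_mul, RCLike.norm_conj] at h2
    have h3 : ‖p‖ < 1 := by simpa using hp
    have h4 : ‖z‖ < 1 := by simpa using hz
    nlinarith [norm_nonneg p, norm_nonneg z]
  have hb : DifferentiableOn ℂ (deriv β) (ball 0 1) := h.diff.deriv isOpen_ball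
  have hnb : ball (0:ℂ) 1 ∈ 𝓝 z := isOpen_ball.mem_nhds hz
  have db : HasDerivAt β (deriv β z) z := (h.diff.differentiableAt hnb).hasDerivAt
  have ddb : HasDerivAt (deriv β) (deriv (deriv β) z) z := (hb.differentiableAt hnb).hasDerivAt
  have dphi1 : HasDerivAt (phi β) (dphi β z) z := by
    have := (hasDerivAt_inv hz0).add db
    unfold dphi
    exact this
  have ddphi : HasDerivAt (dphi β) (2 * (z ^ 3)⁻¹ + deriv (deriv β) z) z := by
    have h1 : HasDerivAt (fun z : ℂ => z ^ 2) (2 * z) z := by simpa using hasDerivAt_pow 2 z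
    have h2 := (h1.inv (pow_ne_zero 2 hz0)).neg.add ddb
    have h3 := h2.congr_deriv (g' := 2 * (z ^ 3)⁻¹ + deriv (deriv β) z) (by
      field_simp)
    exact h3
  have dN : deriv (N β) z = -(2 * z * deriv β z) - z ^ 2 * deriv (deriv β) z := by
    have h1 : HasDerivAt (fun z : ℂ => z ^ 2) (2 * z) z := by simpa using hasDerivAt_pow 2 z
    have h2 := (h1.mul ddb).const_sub 1
    have h3 : deriv (N β) z = -(2 * z * deriv β z + z ^ 2 * deriv (deriv β) z) := by
      unfold N
      exact h2.deriv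
    rw [h3]
    ring
  have dh := hasDerivAt_hh (τ := τ) hzp hc
  have d1 : HasDerivAt (fun z => eps β p τ / (phi β z - phi β p))
      (-(eps β p τ * dphi β z) / (phi β z - phi β p) ^ 2) z := by
    have h1 := (hasDerivAt_const z (eps β p τ)).div (dphi1.sub_const (phi β p)) hne
    exact h1.congr_deriv (by ring)
  have d2 : HasDerivAt (fun z => dphi β z * (z * hh p τ z))
      ((2 * (z ^ 3)⁻¹ + deriv (deriv β) z) * (z * hh p τ z) +
        dphi β z * (1 * hh p τ z + z * hd p τ z)) z :=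
    ddphi.mul ((hasDerivAt_id z).mul dh)
  have d3 : HasDerivAt (fun z => VV β p τ z - (τ.re : ℂ) * phi β z)
      (-(eps β p τ * dphi β z) / (phi β z - phi β p) ^ 2 +
        ((2 * (z ^ 3)⁻¹ + deriv (deriv β) z) * (z * hh p τ z) +
        dphi β z * (1 * hh p τ z + z * hd p τ z)) - (τ.re : ℂ) * dphi β z) z := by
    have := (d1.add d2).sub (dphi1.const_mul (τ.re : ℂ))
    unfold VV
    exact this
  rw [d3.deriv]
  unfold dl
  rw [dN]
  have hN' : N β z = 1 - z ^ 2 * deriv β z := rfl
  have key : N β z * (-(eps β p τ / (phi β z - phi β p) ^ 2) + hh p τ z *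
      (z * (-(2 * z * deriv β z) - z ^ 2 * deriv (deriv β) z) / N β z) - hh p τ z +
      z * hd p τ z - (τ.re : ℂ)) = -(N β z * eps β p τ / (phi β z - phi β p) ^ 2) + hh p τ z *
      (z * (-(2 * z * deriv β z) - z ^ 2 * deriv (deriv β) z)) - N β z * hh p τ z +
      N β z * (z * hd p τ z) - N β z * (τ.re : ℂ) := by
    field_simp
  rw [key, hN']
  unfold dphi
  field_simp
  ring

end

end Pool.Agent.Helper27.CK
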