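import Pool.Agent.Helper14.CK.JBasic
import Pool.Agent.Helper27.CK.Var

/-!
Project CK: the first variation of the area functional in log-polar coordinates.
-/

set_option autoImplicit false

open Complex MeasureTheory Metric Set Filter Topology
open scoped Real ComplexConjugate

namespace Pool.Agent.Helper27.CK

open Pool.Agent.Helper39.Area Pool.Agent.Helper5.CK
open Pool.Agent.Helper52.EK hiding Rect
open Pool.Agent.Helper14.CK

noncomputable section

/-- product weight in log-polar coordinates -/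
structure Wt2 (om om' : ℝ → ℝ) (a b : ℝ) (u u' : ℝ → ℝ) : Prop where
  a_pos : 0 < a
  a_lt : a < b
  om_d : ∀ x, HasDerivAt om (om' x) x
  om_c : Continuous om'
  om_a : om a = 0
  om_b : om b = 0
  om_nn : ∀ x, 0 ≤ om x
  u_d : ∀ θ, HasDerivAt u (u' θ) θ
  u_c : Continuous u'
  u_per : u (-π) = u π
  u_nn : ∀ θ, 0 ≤ u θ

/-- the density `‖N‖ ^ (-κ)` in log-polar coordinates -/
def FF (κ : ℝ) (β : ℂ → ℂ) (p : ℝ × ℝ) : ℝ := ‖N β (ep (-p.1) p.2)‖ ^ (-κ)

/-- the functional -/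
def J (κ : ℝ) (om u : ℝ → ℝ) (a b : ℝ) (β : ℂ → ℂ) : ℝ :=
  ∫ p in Rect a b, om p.1 * u p.2 * FF κ β p

/-- kernel of `Re h` -/
def k3 (z0 z : ℂ) : ℂ := z0 * ((1 - ‖z‖ ^ 2 : ℝ) : ℂ) / ((z - z0) * (1 - z0 * conj z))

/-- kernel of `Im h` -/
def k5 (z0 z : ℂ) : ℂ := (z + z0) / (z - z0) + (1 + z0 * conj z) / (1 - z0 * conj z)

/-- kernel of `- Re (z h')` -/
def k4 (z0 z : ℂ) : ℂ := z * z0 / (z - z0) ^ 2 + conj z * z0 / (1 - z0 * conj z) ^ 2

/-- the kernel of the first variation -/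
def body (κ : ℝ) (om om' u u' : ℝ → ℝ) (β : ℂ → ℂ) (z0 : ℂ) (p : ℝ × ℝ) : ℂ :=
  (om p.1 : ℂ) * (u p.2 : ℂ) *
    ((κ : ℂ) - κ * (z0 ^ 2 * dphi β z0 ^ 2 / (phi β (ep (-p.1) p.2) - phi β z0) ^ 2) +
      (κ + 2) * k4 z0 (ep (-p.1) p.2) + κ * k3 z0 (ep (-p.1) p.2)) +
    (om' p.1 : ℂ) * (u p.2 : ℂ) * k3 z0 (ep (-p.1) p.2) +
    I / 2 * ((om p.1 : ℂ) * (u' p.2 : ℂ) * k5 z0 (ep (-p.1) p.2))

/-- the first variation -/
def EE (κ : ℝ) (om om' u u' : ℝ → ℝ) (a b : ℝ) (β : ℂ → ℂ) (z0 : ℂ) : ℂ :=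
  ∫ p in Rect a b, (FF κ β p : ℂ) * body κ om om' u u' β z0 p

/-! ### kernels -/

theorem hh_re {p B z : ℂ} (h1 : z ≠ p) (h2 : p * conj z ≠ 1) :
    (hh p B z).re = (B * k3 p z).re := by
  have e1 : z - p ≠ 0 := sub_ne_zero.mpr h1
  have e2 : 1 - p * conj z ≠ 0 := sub_ne_zero.mpr (Ne.symm h2)
  have h3 : conj ((1 + conj p * z) / (1 - conj p * z)) = (1 + p * conj z) / (1 - p * conj z) := by
    simp [map_div₀]
  have h4 : (hh p B z).re = (1 / 2) * (B * ((z + p) / (z - p) -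
      (1 + p * conj z) / (1 - p * conj z))).re := by
    unfold hh
    have : ((1 / 2 : ℂ) * (B * ((z + p) / (z - p)) - conj B * ((1 + conj p * z) /
        (1 - conj p * z)))).re = (1 / 2 : ℝ) * (B * ((z + p) / (z - p)) - conj B *
        ((1 + conj p * z) / (1 - conj p * z))).re := by
      rw [show (1 / 2 : ℂ) = ((1 / 2 : ℝ) : ℂ) by norm_num, Complex.re_ofReal_mul]
    rw [this]
    congr 1
    rw [← h3]
    simp only [Complex.sub_re, Complex.mul_re, Complex.conj_re, Complex.conj_im, Complex.sub_im]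
    ring
  have h5 : (z + p) / (z - p) - (1 + p * conj z) / (1 - p * conj z) = 2 * k3 p z := by
    unfold k3
    have h6 : ((1 - ‖z‖ ^ 2 : ℝ) : ℂ) = 1 - z * conj z := by
      rw [Complex.mul_conj, Complex.normSq_eq_norm_sq]
      push_cast
      ring
    rw [h6]
    field_simp
    ring
  rw [h4, h5]
  have h7 : (B * (2 * k3 p z)).re = 2 * (B * k3 p z).re := by
    rw [show B * (2 * k3 p z) = ((2 : ℝ) : ℂ) * (B * k3 p z) by push_cast; ring,
      Complex.re_ofReal_mul]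
  rw [h7]
  ring

theorem hh_im {p B z : ℂ} :
    -(hh p B z).im = (B * (I / 2 * k5 p z)).re := by
  have h3 : conj ((1 + conj p * z) / (1 - conj p * z)) = (1 + p * conj z) / (1 - p * conj z) := by
    simp [map_div₀]
  have h5 : k5 p z = (z + p) / (z - p) + conj ((1 + conj p * z) / (1 - conj p * z)) := by
    rw [h3]; rfl
  rw [h5]
  unfold hh
  generalize (z + p) / (z - p) = X
  generalize (1 + conj p * z) / (1 - conj p * z) = Y
  have e1 : (1 / 2 * (B * X - conj B * Y)).im = 1 / 2 * (B * X - conj B * Y).im := by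
    rw [show (1 / 2 : ℂ) = ((1 / 2 : ℝ) : ℂ) by norm_num, Complex.im_ofReal_mul]
  have e2 : (B * (I / 2 * (X + conj Y))).re = 1 / 2 * (B * (I * (X + conj Y))).re := by
    rw [show B * (I / 2 * (X + conj Y)) = ((1 / 2 : ℝ) : ℂ) * (B * (I * (X + conj Y))) by
      push_cast; ring, Complex.re_ofReal_mul]
  rw [e1, e2]
  simp only [Complex.sub_im, Complex.mul_im, Complex.conj_re, Complex.conj_im, Complex.add_im,
    Complex.add_re, Complex.mul_re, Complex.I_re, Complex.I_im]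
  ring

theorem hd_re {p B z : ℂ} : -(z * hd p B z).re = (B * k4 p z).re := by
  have h3 : conj (z * (conj p / (1 - conj p * z) ^ 2)) = conj z * p / (1 - p * conj z) ^ 2 := by
    simp [map_div₀, mul_div_assoc]
  have h5 : k4 p z = z * (p / (z - p) ^ 2) + conj (z * (conj p / (1 - conj p * z) ^ 2)) := by
    rw [h3]; unfold k4; ring
  rw [h5]
  have h6 : z * hd p B z = -(B * (z * (p / (z - p) ^ 2))) -
      conj B * (z * (conj p / (1 - conj p * z) ^ 2)) := by
    unfold hd; ring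
  rw [h6]
  generalize z * (p / (z - p) ^ 2) = X
  generalize z * (conj p / (1 - conj p * z) ^ 2) = Y
  simp only [Complex.sub_re, Complex.mul_re, Complex.conj_re, Complex.conj_im, Complex.add_re,
    Complex.neg_re, Complex.add_im]
  ring

/-! ### geometry of the window -/

/-- the closed annulus of the window -/
def An (a b : ℝ) : Set ℂ := {z | Real.exp (-b) ≤ ‖z‖ ∧ ‖z‖ ≤ Real.exp (-a)}

theorem ep_mem_An {a b : ℝ} {p : ℝ × ℝ} (hp : p ∈ Rect a b) : ep (-p.1) p.2 ∈ An a b := by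
  have h1 := hp.1
  constructor
  · rw [norm_ep]
    exact Real.exp_le_exp.mpr (by linarith [h1.2])
  · rw [norm_ep]
    exact Real.exp_le_exp.mpr (by linarith [h1.1])

theorem An_ball {a b : ℝ} (ha : 0 < a) {z : ℂ} (hz : z ∈ An a b) : z ∈ ball (0:ℂ) 1 := by
  have h1 : Real.exp (-a) < 1 := by
    rw [← Real.exp_zero]
    exact Real.exp_lt_exp.mpr (by linarith)
  have := hz.2
  rw [mem_ball, dist_zero_right]
  linarith

theorem An_ne {a b : ℝ} {z : ℂ} (hz : z ∈ An a b) : z ≠ 0 := by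
  have h1 := Real.exp_pos (-b)
  exact norm_pos_iff.mp (h1.trans_le hz.1)

theorem cont_ep : Continuous fun p : ℝ × ℝ => ep (-p.1) p.2 := by
  unfold ep
  fun_prop

theorem contRect {a b : ℝ} {E : Type*} [TopologicalSpace E] {g : ℂ → E}
    (hg : ContinuousOn g (An a b)) :
    ContinuousOn (fun p : ℝ × ℝ => g (ep (-p.1) p.2)) (Rect a b) :=
  hg.comp cont_ep.continuousOn fun _ hp => ep_mem_An hp

structure Geo (a b : ℝ) (β : ℂ → ℂ) (z0 : ℂ) : Prop where
  ext : Ext β
  a_pos : 0 < a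
  z0_ne : z0 ≠ 0
  z0_lt : ‖z0‖ < Real.exp (-b)
  ab : a ≤ b

section geo

variable {a b : ℝ} {β : ℂ → ℂ} {z0 z : ℂ}

theorem Geo.z0_ball (h : Geo a b β z0) : z0 ∈ ball (0:ℂ) 1 := by
  have h1 : Real.exp (-b) < 1 := by
    rw [← Real.exp_zero]
    exact Real.exp_lt_exp.mpr (by linarith [h.a_pos, h.ab])
  rw [mem_ball, dist_zero_right]
  linarith [h.z0_lt]

theorem Geo.ne (h : Geo a b β z0) (hz : z ∈ An a b) : z ≠ z0 := by
  intro h1
  have := hz.1
  rw [h1] at this
  linarith [h.z0_lt]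

theorem Geo.ne' (h : Geo a b β z0) (hz : z ∈ An a b) : z - z0 ≠ 0 := sub_ne_zero.mpr (h.ne hz)

theorem Geo.conj_ne (h : Geo a b β z0) (hz : z ∈ An a b) : z0 * conj z ≠ 1 := by
  intro h1
  have h2 : ‖z0 * conj z‖ = 1 := by rw [h1, norm_one]
  rw [norm_mul, RCLike.norm_conj] at h2
  have h3 : ‖z0‖ < 1 := by simpa using h.z0_ball
  have h4 : ‖z‖ < 1 := by simpa using An_ball h.a_pos hz
  nlinarith [norm_nonneg z0, norm_nonneg z]

theorem Geo.conj_ne2 (h : Geo a b β z0) (hz : z ∈ An a b) : 1 - z0 * conj z ≠ 0 :=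
  sub_ne_zero.mpr (Ne.symm (h.conj_ne hz))

theorem Geo.conj_ne3 (h : Geo a b β z0) (hz : z ∈ An a b) : conj z0 * z ≠ 1 := by
  intro h1
  apply h.conj_ne hz
  have := congrArg conj h1
  simpa using this

theorem Geo.conj_ne4 (h : Geo a b β z0) (hz : z ∈ An a b) : 1 - conj z0 * z ≠ 0 :=
  sub_ne_zero.mpr (Ne.symm (h.conj_ne3 hz))

theorem Geo.N_ne (h : Geo a b β z0) (hz : z ∈ An a b) : N β z ≠ 0 :=
  h.ext.ne z (An_ball h.a_pos hz)

theorem Geo.phi_ne (h : Geo a b β z0) (hz : z ∈ An a b) : phi β z - phi β z0 ≠ 0 := by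
  intro h1
  exact h.ne hz (h.ext.inj z z0 (An_ball h.a_pos hz) h.z0_ball (An_ne hz) h.z0_ne
    (sub_eq_zero.mp h1))

theorem Geo.cN (h : Geo a b β z0) : ContinuousOn (N β) (An a b) := by
  have hb : DifferentiableOn ℂ (deriv β) (ball 0 1) := h.ext.diff.deriv isOpen_ball
  unfold N
  exact (continuousOn_const.sub ((continuousOn_id.pow 2).mul hb.continuousOn)).mono
    fun z hz => An_ball h.a_pos hz

theorem Geo.dN (h : Geo a b β z0) (hz : z ∈ An a b) : HasDerivAt (N β) (deriv (N β) z) z := by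
  have hb : DifferentiableOn ℂ (deriv β) (ball 0 1) := h.ext.diff.deriv isOpen_ball
  have h1 : DifferentiableOn ℂ (N β) (ball 0 1) := by
    unfold N
    exact (differentiableOn_const _).sub ((differentiableOn_id.pow 2).mul hb)
  exact (h1.differentiableAt (isOpen_ball.mem_nhds (An_ball h.a_pos hz))).hasDerivAt

theorem Geo.cN' (h : Geo a b β z0) : ContinuousOn (deriv (N β)) (An a b) := by
  have hb : DifferentiableOn ℂ (deriv β) (ball 0 1) := h.ext.diff.deriv isOpen_ball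
  have h1 : DifferentiableOn ℂ (N β) (ball 0 1) := by
    unfold N
    exact (differentiableOn_const _).sub ((differentiableOn_id.pow 2).mul hb)
  exact (h1.deriv isOpen_ball).continuousOn.mono fun z hz => An_ball h.a_pos hz

theorem Geo.cphi (h : Geo a b β z0) : ContinuousOn (phi β) (An a b) := by
  unfold phi
  exact (continuousOn_inv₀.mono fun z hz => An_ne hz).add
    (h.ext.diff.continuousOn.mono fun z hz => An_ball h.a_pos hz)

theorem Geo.cF (h : Geo a b β z0) (κ : ℝ) : ContinuousOn (FF κ β) (Rect a b) := by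
  have h1 : ContinuousOn (fun z => ‖N β z‖ ^ (-κ)) (An a b) :=
    h.cN.norm.rpow_const fun z hz => Or.inl (norm_ne_zero_iff.mpr (h.N_ne hz))
  exact contRect h1

theorem Geo.ch (h : Geo a b β z0) (B : ℂ) : ContinuousOn (hh z0 B) (An a b) := by
  intro z hz
  exact (hasDerivAt_hh (τ := B) (h.ne hz) (h.conj_ne3 hz)).continuousAt.continuousWithinAt

theorem Geo.chd (h : Geo a b β z0) (B : ℂ) : ContinuousOn (hd z0 B) (An a b) := by
  unfold hd
  refine ContinuousOn.sub (ContinuousOn.neg (continuousOn_const.mul (continuousOn_const.div ?_ ?_)))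
    (continuousOn_const.mul (continuousOn_const.div ?_ ?_))
  · fun_prop
  · intro z hz
    exact pow_ne_zero 2 (h.ne' hz)
  · fun_prop
  · intro z hz
    exact pow_ne_zero 2 (h.conj_ne4 hz)

end geo

end

end Pool.Agent.Helper27.CK
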