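import Pool.Agent.Helper27.CK.DJ

/-!
Project CK: the first variation of the area functional is `Re (B * EE)`.
-/

set_option autoImplicit false

open Complex MeasureTheory Metric Set Filter Topology
open scoped Real ComplexConjugate

namespace Pool.Agent.Helper27.CK

open Pool.Agent.Helper39.Area Pool.Agent.Helper5.CK
open Pool.Agent.Helper52.EK hiding Rect
open Pool.Agent.Helper14.CK

noncomputable section

variable {a b κ : ℝ} {β : ℂ → ℂ} {z0 B : ℂ} {om om' u u' : ℝ → ℝ}

theorem Wt2.c_om (W : Wt2 om om' a b u u') : Continuous om :=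
  continuous_iff_continuousAt.mpr fun r => (W.om_d r).continuousAt

theorem Wt2.c_u (W : Wt2 om om' a b u u') : Continuous u :=
  continuous_iff_continuousAt.mpr fun r => (W.u_d r).continuousAt

/-- logarithmic derivative `z N' / N` -/
def qN (β : ℂ → ℂ) (z : ℂ) : ℂ := z * deriv (N β) z / N β z

theorem Geo.cq (h : Geo a b β z0) : ContinuousOn (qN β) (An a b) :=
  (continuousOn_id.mul h.cN').div h.cN fun _ hz => h.N_ne hz

/-- derivative of the density in `x` -/
theorem Geo.F_x (h : Geo a b β z0) {x θ : ℝ} (hx : (x, θ) ∈ Rect a b) :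
    HasDerivAt (fun x => FF κ β (x, θ)) (κ * FF κ β (x, θ) * (qN β (ep (-x) θ)).re) x := by
  have hz := ep_mem_An hx
  have h1 := hasDerivAt_norm_rpow κ (hasDerivAt_comp_x (h.dN hz)) (h.N_ne hz)
  refine h1.congr_deriv ?_
  unfold FF qN
  rw [neg_div, Complex.neg_re]
  ring

/-- derivative of the density in `θ` -/
theorem Geo.F_θ (h : Geo a b β z0) {x θ : ℝ} (hx : (x, θ) ∈ Rect a b) :
    HasDerivAt (fun θ => FF κ β (x, θ)) (κ * FF κ β (x, θ) * (qN β (ep (-x) θ)).im) θ := by
  have hz := ep_mem_An hx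
  have h1 := hasDerivAt_norm_rpow κ (hasDerivAt_comp_θ (h.dN hz)) (h.N_ne hz)
  refine h1.congr_deriv ?_
  unfold FF qN
  rw [mul_div_assoc, Complex.I_mul_re]
  ring

/-- the `x` flux -/
def G1 (κ : ℝ) (om u : ℝ → ℝ) (β : ℂ → ℂ) (z0 B : ℂ) (p : ℝ × ℝ) : ℝ :=
  -(om p.1 * (u p.2 * (FF κ β p * (hh z0 B (ep (-p.1) p.2)).re)))

def G1x (κ : ℝ) (om om' u : ℝ → ℝ) (β : ℂ → ℂ) (z0 B : ℂ) (p : ℝ × ℝ) : ℝ :=
  -(om' p.1 * (u p.2 * (FF κ β p * (hh z0 B (ep (-p.1) p.2)).re)) +
    om p.1 * (u p.2 * (κ * FF κ β p * (qN β (ep (-p.1) p.2)).re * (hh z0 B (ep (-p.1) p.2)).re +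
      FF κ β p * (-(ep (-p.1) p.2 * hd z0 B (ep (-p.1) p.2))).re)))

/-- the `θ` flux -/
def G2 (κ : ℝ) (om u : ℝ → ℝ) (β : ℂ → ℂ) (z0 B : ℂ) (p : ℝ × ℝ) : ℝ :=
  om p.1 * (u p.2 * (FF κ β p * (hh z0 B (ep (-p.1) p.2)).im))

def G2θ (κ : ℝ) (om u u' : ℝ → ℝ) (β : ℂ → ℂ) (z0 B : ℂ) (p : ℝ × ℝ) : ℝ :=
  om p.1 * (u' p.2 * (FF κ β p * (hh z0 B (ep (-p.1) p.2)).im) +
    u p.2 * (κ * FF κ β p * (qN β (ep (-p.1) p.2)).im * (hh z0 B (ep (-p.1) p.2)).im +
      FF κ β p * (I * (ep (-p.1) p.2 * hd z0 B (ep (-p.1) p.2))).im))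

theorem Geo.c_hr (h : Geo a b β z0) (B : ℂ) :
    ContinuousOn (fun p : ℝ × ℝ => (hh z0 B (ep (-p.1) p.2)).re) (Rect a b) :=
  Complex.continuous_re.comp_continuousOn (contRect (h.ch B))

theorem Geo.c_hi (h : Geo a b β z0) (B : ℂ) :
    ContinuousOn (fun p : ℝ × ℝ => (hh z0 B (ep (-p.1) p.2)).im) (Rect a b) :=
  Complex.continuous_im.comp_continuousOn (contRect (h.ch B))

theorem Geo.c_qr (h : Geo a b β z0) :
    ContinuousOn (fun p : ℝ × ℝ => (qN β (ep (-p.1) p.2)).re) (Rect a b) :=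
  Complex.continuous_re.comp_continuousOn (contRect h.cq)

theorem Geo.c_qi (h : Geo a b β z0) :
    ContinuousOn (fun p : ℝ × ℝ => (qN β (ep (-p.1) p.2)).im) (Rect a b) :=
  Complex.continuous_im.comp_continuousOn (contRect h.cq)

theorem Geo.c_zd (h : Geo a b β z0) (B : ℂ) :
    ContinuousOn (fun p : ℝ × ℝ => ep (-p.1) p.2 * hd z0 B (ep (-p.1) p.2)) (Rect a b) :=
  cont_ep.continuousOn.mul (contRect (h.chd B))

theorem Geo.G1_int (h : Geo a b β z0) (W : Wt2 om om' a b u u') :
    ContinuousOn (G1x κ om om' u β z0 B) (Rect a b) ∧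
      ∫ p in Rect a b, G1x κ om om' u β z0 B p = 0 := by
  have co : ContinuousOn (fun p : ℝ × ℝ => om p.1) (Rect a b) :=
    (W.c_om.comp continuous_fst).continuousOn
  have co' : ContinuousOn (fun p : ℝ × ℝ => om' p.1) (Rect a b) :=
    (W.om_c.comp continuous_fst).continuousOn
  have cu : ContinuousOn (fun p : ℝ × ℝ => u p.2) (Rect a b) :=
    (W.c_u.comp continuous_snd).continuousOn
  have hc : ContinuousOn (G1x κ om om' u β z0 B) (Rect a b) := by
    unfold G1x
    refine ContinuousOn.neg (ContinuousOn.add (co'.mul (cu.mul ((h.cF κ).mul (h.c_hr B)))) ?_)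
    refine co.mul (cu.mul (ContinuousOn.add ?_ ?_))
    · exact ((continuousOn_const.mul (h.cF κ)).mul h.c_qr).mul (h.c_hr B)
    · exact (h.cF κ).mul (Complex.continuous_re.comp_continuousOn (h.c_zd B).neg)
  refine ⟨hc, ibp_x h.ab hc (G := G1 κ om u β z0 B) ?_ ?_ ?_⟩
  · intro x hx θ hθ
    have hxr : (x, θ) ∈ Rect a b := ⟨hx, hθ⟩
    have hz := ep_mem_An hxr
    have h1 := h.F_x (κ := κ) hxr
    have h2 := hasDerivAt_re (hasDerivAt_comp_x (hasDerivAt_hh (τ := B) (h.ne hz) (h.conj_ne3 hz)))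
    have h3 := ((W.om_d x).mul ((h1.mul h2).const_mul (u θ))).neg
    exact h3.congr_deriv (by unfold G1x; simp only [Pi.mul_apply])
  · intro θ
    simp [G1, W.om_a]
  · intro θ
    simp [G1, W.om_b]

theorem Geo.G2_int (h : Geo a b β z0) (W : Wt2 om om' a b u u') :
    ContinuousOn (G2θ κ om u u' β z0 B) (Rect a b) ∧
      ∫ p in Rect a b, G2θ κ om u u' β z0 B p = 0 := by
  have co : ContinuousOn (fun p : ℝ × ℝ => om p.1) (Rect a b) :=
    (W.c_om.comp continuous_fst).continuousOn
  have cu : ContinuousOn (fun p : ℝ × ℝ => u p.2) (Rect a b) :=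
    (W.c_u.comp continuous_snd).continuousOn
  have cu' : ContinuousOn (fun p : ℝ × ℝ => u' p.2) (Rect a b) :=
    (W.u_c.comp continuous_snd).continuousOn
  have hc : ContinuousOn (G2θ κ om u u' β z0 B) (Rect a b) := by
    unfold G2θ
    refine co.mul (ContinuousOn.add (cu'.mul ((h.cF κ).mul (h.c_hi B))) ?_)
    refine cu.mul (ContinuousOn.add ?_ ?_)
    · exact ((continuousOn_const.mul (h.cF κ)).mul h.c_qi).mul (h.c_hi B)
    · exact (h.cF κ).mul (Complex.continuous_im.comp_continuousOn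
        (continuousOn_const.mul (h.c_zd B)))
  refine ⟨hc, ibp_θ h.ab hc (G := G2 κ om u β z0 B) ?_ ?_⟩
  · intro x hx θ hθ
    have hxr : (x, θ) ∈ Rect a b := ⟨hx, hθ⟩
    have hz := ep_mem_An hxr
    have h1 := h.F_θ (κ := κ) hxr
    have h2 := hasDerivAt_im (hasDerivAt_comp_θ (hasDerivAt_hh (τ := B) (h.ne hz) (h.conj_ne3 hz)))
    have h3 := (((W.u_d θ).mul (h1.mul h2)).const_mul (om x))
    exact h3.congr_deriv (by unfold G2θ; simp only [Pi.mul_apply])
  · intro x
    have e1 : ep (-x) (-π) = ep (-x) π := by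
      unfold ep
      rw [Complex.exp_add, Complex.exp_add]
      congr 1
      push_cast
      rw [neg_mul, Complex.exp_neg, Complex.exp_pi_mul_I]
      norm_num
    unfold G2 FF
    simp only
    rw [e1, W.u_per]

/-- pointwise identity -/
theorem dl_body (h : Geo a b β z0) {p : ℝ × ℝ} (hp : p ∈ Rect a b) :
    -κ * (om p.1 * u p.2 * (FF κ β p * (dl β z0 B (ep (-p.1) p.2)).re)) =
      G1x κ om om' u β z0 B p + G2θ κ om u u' β z0 B p +
        FF κ β p * (B * body κ om om' u u' β z0 p).re := by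
  have hz := ep_mem_An hp
  set z := ep (-p.1) p.2 with hzd
  have e3 := hh_re (B := B) (h.ne hz) (h.conj_ne hz)
  have e5 := hh_im (p := z0) (B := B) (z := z)
  have e4 := hd_re (p := z0) (B := B) (z := z)
  have eb : (B * body κ om om' u u' β z0 p).re =
      om p.1 * u p.2 * (κ * B.re + κ * (-(B * (z0 ^ 2 * dphi β z0 ^ 2 /
        (phi β z - phi β z0) ^ 2)).re) + (κ + 2) * (B * k4 z0 z).re + κ * (B * k3 z0 z).re) +
      om' p.1 * u p.2 * (B * k3 z0 z).re + om p.1 * u' p.2 * (B * (I / 2 * k5 z0 z)).re := by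
    unfold body
    rw [← hzd]
    generalize z0 ^ 2 * dphi β z0 ^ 2 / (phi β z - phi β z0) ^ 2 = X
    generalize k3 z0 z = K3
    generalize k4 z0 z = K4
    generalize k5 z0 z = K5
    have : B * ((om p.1 : ℂ) * (u p.2 : ℂ) * ((κ : ℂ) - κ * X + (κ + 2) * K4 + κ * K3) +
        (om' p.1 : ℂ) * (u p.2 : ℂ) * K3 + I / 2 * ((om p.1 : ℂ) * (u' p.2 : ℂ) * K5)) =
        ((om p.1 * u p.2 * κ : ℝ) : ℂ) * B + ((om p.1 * u p.2 * κ : ℝ) : ℂ) * (-(B * X)) +
        ((om p.1 * u p.2 * (κ + 2) : ℝ) : ℂ) * (B * K4) +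
        ((om p.1 * u p.2 * κ : ℝ) : ℂ) * (B * K3) +
        ((om' p.1 * u p.2 : ℝ) : ℂ) * (B * K3) +
        ((om p.1 * u' p.2 : ℝ) : ℂ) * (B * (I / 2 * K5)) := by
      push_cast
      ring
    rw [this]
    simp only [Complex.add_re, Complex.re_ofReal_mul, Complex.neg_re]
    ring
  rw [eb, ← e3, ← e5, ← e4]
  have ed : (dl β z0 B z).re = (B * (z0 ^ 2 * dphi β z0 ^ 2 / (phi β z - phi β z0) ^ 2)).re +
      ((hh z0 B z).re * (qN β z).re - (hh z0 B z).im * (qN β z).im) - (hh z0 B z).re +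
      (z * hd z0 B z).re - B.re := by
    unfold dl
    have e1 : -(eps β z0 B / (phi β z - phi β z0) ^ 2) =
        B * (z0 ^ 2 * dphi β z0 ^ 2 / (phi β z - phi β z0) ^ 2) := by
      unfold eps; ring
    rw [e1]
    have e2 : z * deriv (N β) z / N β z = qN β z := rfl
    rw [e2]
    simp only [Complex.add_re, Complex.sub_re, Complex.mul_re (hh z0 B z) (qN β z),
      Complex.ofReal_re]
  rw [ed]
  unfold G1x G2θ
  rw [← hzd]
  have e6 : (-(z * hd z0 B z)).re = -(z * hd z0 B z).re := Complex.neg_re _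
  have e7 : (I * (z * hd z0 B z)).im = (z * hd z0 B z).re := by
    rw [Complex.I_mul_im]
  rw [e6, e7]
  ring

theorem Geo.c_body (h : Geo a b β z0) (W : Wt2 om om' a b u u') :
    ContinuousOn (body κ om om' u u' β z0) (Rect a b) := by
  have co : ContinuousOn (fun p : ℝ × ℝ => (om p.1 : ℂ)) (Rect a b) :=
    (Complex.continuous_ofReal.comp (W.c_om.comp continuous_fst)).continuousOn
  have co' : ContinuousOn (fun p : ℝ × ℝ => (om' p.1 : ℂ)) (Rect a b) :=
    (Complex.continuous_ofReal.comp (W.om_c.comp continuous_fst)).continuousOn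
  have cu : ContinuousOn (fun p : ℝ × ℝ => (u p.2 : ℂ)) (Rect a b) :=
    (Complex.continuous_ofReal.comp (W.c_u.comp continuous_snd)).continuousOn
  have cu' : ContinuousOn (fun p : ℝ × ℝ => (u' p.2 : ℂ)) (Rect a b) :=
    (Complex.continuous_ofReal.comp (W.u_c.comp continuous_snd)).continuousOn
  have ck3 : ContinuousOn (k3 z0) (An a b) := by
    unfold k3
    refine ContinuousOn.div ?_ ?_ fun z hz => mul_ne_zero (h.ne' hz) (h.conj_ne2 hz)
    · have : Continuous fun z : ℂ => ((1 - ‖z‖ ^ 2 : ℝ) : ℂ) := by fun_prop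
      exact (continuous_const.mul this).continuousOn
    · have : Continuous fun z : ℂ => (z - z0) * (1 - z0 * conj z) := by
        have := Complex.continuous_conj
        fun_prop
      exact this.continuousOn
  have ck4 : ContinuousOn (k4 z0) (An a b) := by
    unfold k4
    refine ContinuousOn.add (ContinuousOn.div ?_ ?_ fun z hz => pow_ne_zero 2 (h.ne' hz))
      (ContinuousOn.div ?_ ?_ fun z hz => pow_ne_zero 2 (h.conj_ne2 hz))
    · fun_prop
    · fun_prop
    · have : Continuous fun z : ℂ => conj z * z0 := by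
        have := Complex.continuous_conj
        fun_prop
      exact this.continuousOn
    · have : Continuous fun z : ℂ => (1 - z0 * conj z) ^ 2 := by
        have := Complex.continuous_conj
        fun_prop
      exact this.continuousOn
  have ck5 : ContinuousOn (k5 z0) (An a b) := by
    unfold k5
    refine ContinuousOn.add (ContinuousOn.div ?_ ?_ fun z hz => h.ne' hz)
      (ContinuousOn.div ?_ ?_ fun z hz => h.conj_ne2 hz)
    · fun_prop
    · fun_prop
    · have : Continuous fun z : ℂ => 1 + z0 * conj z := by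
        have := Complex.continuous_conj
        fun_prop
      exact this.continuousOn
    · have : Continuous fun z : ℂ => 1 - z0 * conj z := by
        have := Complex.continuous_conj
        fun_prop
      exact this.continuousOn
  have cph : ContinuousOn (fun z => z0 ^ 2 * dphi β z0 ^ 2 / (phi β z - phi β z0) ^ 2)
      (An a b) :=
    continuousOn_const.div ((h.cphi.sub continuousOn_const).pow 2)
      fun z hz => pow_ne_zero 2 (h.phi_ne hz)
  have c3 := contRect ck3
  have c4 := contRect ck4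
  have c5 := contRect ck5
  have cp := contRect cph
  unfold body
  refine ContinuousOn.add (ContinuousOn.add ?_ ?_) ?_
  · refine (co.mul cu).mul ?_
    exact ((continuousOn_const.sub (continuousOn_const.mul cp)).add
      (continuousOn_const.mul c4)).add (continuousOn_const.mul c3)
  · exact (co'.mul cu).mul c3
  · exact continuousOn_const.mul ((co.mul cu').mul c5)

theorem Geo.c_EE (h : Geo a b β z0) (W : Wt2 om om' a b u u') :
    ContinuousOn (fun p => (FF κ β p : ℂ) * body κ om om' u u' β z0 p) (Rect a b) :=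
  (Complex.continuous_ofReal.comp_continuousOn (h.cF κ)).mul (h.c_body W)

/-- **the first variation of the area functional** -/
theorem dJ_eq (h : Geo a b β z0) (W : Wt2 om om' a b u u') (κ : ℝ) (B : ℂ) :
    -κ * ∫ p in Rect a b, om p.1 * u p.2 * (FF κ β p * (dl β z0 B (ep (-p.1) p.2)).re) =
      (B * EE κ om om' u u' a b β z0).re := by
  obtain ⟨c1, i1⟩ := h.G1_int (κ := κ) (B := B) W
  obtain ⟨c2, i2⟩ := h.G2_int (κ := κ) (B := B) W
  have c3 := h.c_EE (κ := κ) W
  have h1 : -κ * ∫ p in Rect a b, om p.1 * u p.2 * (FF κ β p * (dl β z0 B (ep (-p.1) p.2)).re) =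
      ∫ p in Rect a b, (G1x κ om om' u β z0 B p + G2θ κ om u u' β z0 B p +
        (B * ((FF κ β p : ℂ) * body κ om om' u u' β z0 p)).re) := by
    rw [← integral_const_mul]
    refine setIntegral_congr_fun (measurableSet_rect a b) fun p hp => ?_
    have h2 := dl_body (κ := κ) (om := om) (om' := om') (u := u) (u' := u') (B := B) h hp
    have h3 : (B * ((FF κ β p : ℂ) * body κ om om' u u' β z0 p)).re =
        FF κ β p * (B * body κ om om' u u' β z0 p).re := by
      rw [← Complex.re_ofReal_mul]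
      congr 1
      ring
    rw [h3]
    exact h2
  have c4 : ContinuousOn (fun p => (B * ((FF κ β p : ℂ) *
      body κ om om' u u' β z0 p)).re) (Rect a b) :=
    Complex.continuous_re.comp_continuousOn (continuousOn_const.mul c3)
  have i12 : IntegrableOn (fun p => G1x κ om om' u β z0 B p + G2θ κ om u u' β z0 B p)
      (Rect a b) := (integrableOn_rect c1).add (integrableOn_rect c2)
  rw [h1, integral_add i12 (integrableOn_rect c4),
    integral_add (integrableOn_rect c1) (integrableOn_rect c2), i1, i2]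
  rw [zero_add, zero_add]
  have h5 : IntegrableOn (fun p => B * ((FF κ β p : ℂ) * body κ om om' u u' β z0 p))
      (Rect a b) := integrableOn_rectC (continuousOn_const.mul c3)
  have h6 := integral_re (𝕜 := ℂ) h5
  simp only [RCLike.re_to_complex] at h6
  rw [h6, integral_const_mul]
  rfl

end

end Pool.Agent.Helper27.CK
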