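import Pool.Agent.Helper27.CK.Var

/-!
Project CK: uniform expansion of `‖N‖ ^ (-κ)` under the interior variation.
-/

set_option autoImplicit false

open Complex MeasureTheory Metric Set Filter Topology
open scoped Real ComplexConjugate

namespace Pool.Agent.Helper27.CK

open Pool.Agent.Helper39.Area Pool.Agent.Helper52.EK Pool.Agent.Helper5.CK
open Pool.Agent.Helper39.EK Pool.Agent.Helper43.CK

noncomputable section

/-- one competitor -/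
theorem expand_one {β γ : ℂ → ℂ} (hβ : Ext β) (_hγ : Ext γ) {p τ z : ℂ} {η C0 m : ℝ}
    (hm : 0 < m) (hmz : m ≤ ‖N β z‖) (hη : 0 < η) (hp : η ≤ ‖p‖) (hp1 : ‖p‖ ≤ 1 - η)
    (hz : η ≤ ‖z‖) (hz1 : ‖z‖ ≤ 1 - η) (hzp : η ≤ ‖z - p‖)
    (hC : ‖deriv γ z - deriv β z - deriv (fun z => VV β p τ z - (τ.re : ℂ) * phi β z) z‖ ≤
      C0 * ‖τ‖ ^ 2) :
    ‖N γ z / N β z - 1 - dl β p τ z‖ ≤ C0 / m * ‖τ‖ ^ 2 := by
  have hp0 : p ≠ 0 := norm_pos_iff.mp (by linarith)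
  have hz0 : z ≠ 0 := norm_pos_iff.mp (by linarith)
  have hzp' : z ≠ p := by
    intro h
    rw [h, sub_self, norm_zero] at hzp
    linarith
  have hpb : p ∈ ball (0:ℂ) 1 := by simp; linarith
  have hzb : z ∈ ball (0:ℂ) 1 := by simp; linarith
  have hN : N β z ≠ 0 := hβ.ne z hzb
  have h1 := deriv_VV (τ := τ) hβ hpb hp0 hzb hz0 hzp'
  have h2 : N γ z / N β z - 1 - dl β p τ z = (-z ^ 2 * (deriv γ z - deriv β z -
      deriv (fun z => VV β p τ z - (τ.re : ℂ) * phi β z) z)) / N β z := by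
    have h3 : N γ z - N β z = -z ^ 2 * (deriv γ z - deriv β z) := by
      unfold N; ring
    have h4 : -z ^ 2 * (deriv γ z - deriv β z -
      deriv (fun z => VV β p τ z - (τ.re : ℂ) * phi β z) z) =
      (N γ z - N β z) - N β z * dl β p τ z := by
      rw [h3, ← h1]; ring
    rw [h4]
    field_simp
  rw [h2, norm_div, norm_mul, norm_neg, norm_pow]
  have hz2 : ‖z‖ ^ 2 ≤ 1 := pow_le_one₀ (norm_nonneg z) (by linarith)
  have h5 : ‖z‖ ^ 2 * ‖deriv γ z - deriv β z -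
      deriv (fun z => VV β p τ z - (τ.re : ℂ) * phi β z) z‖ ≤ C0 * ‖τ‖ ^ 2 := by
    calc _ ≤ 1 * ‖deriv γ z - deriv β z -
        deriv (fun z => VV β p τ z - (τ.re : ℂ) * phi β z) z‖ := by gcongr
      _ ≤ _ := by rw [one_mul]; exact hC
  have hC0 : 0 ≤ C0 * ‖τ‖ ^ 2 := (by positivity : (0:ℝ) ≤ ‖z‖ ^ 2 * ‖deriv γ z - deriv β z -
      deriv (fun z => VV β p τ z - (τ.re : ℂ) * phi β z) z‖).trans h5
  calc _ ≤ (C0 * ‖τ‖ ^ 2) / ‖N β z‖ := by gcongr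
    _ ≤ (C0 * ‖τ‖ ^ 2) / m := by gcongr
    _ = _ := by ring

theorem norm_smul_le {t : ℝ} {B : ℂ} (ht : 0 < t) (hB : ‖B‖ ≤ 1) : ‖(t : ℂ) * B‖ ≤ t := by
  rw [norm_mul, Complex.norm_real, Real.norm_eq_abs, abs_of_pos ht]
  calc t * ‖B‖ ≤ t * 1 := by gcongr
    _ = t := mul_one t

theorem expand (hV : Variation) {κ : ℝ} (hκ : 0 ≤ κ) {η : ℝ} (hη : 0 < η) :
    ∃ C t1 : ℝ, 0 < C ∧ 0 < t1 ∧ ∀ β, Ext β → ∀ p : ℂ, η ≤ ‖p‖ → ‖p‖ ≤ 1 - η →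
      ∀ B : ℂ, ‖B‖ ≤ 1 →
      (∀ z : ℂ, η ≤ ‖z‖ → ‖z‖ ≤ 1 - η → η ≤ ‖z - p‖ → ‖dl β p B z‖ ≤ C) ∧
      ∀ t : ℝ, 0 < t → t ≤ t1 → ∃ γ, Ext γ ∧ ∀ z : ℂ, η ≤ ‖z‖ → ‖z‖ ≤ 1 - η → η ≤ ‖z - p‖ →
        |‖N γ z‖ ^ (-κ) - ‖N β z‖ ^ (-κ) + t * (κ * ‖N β z‖ ^ (-κ) * (dl β p B z).re)| ≤
          C * t ^ 2 := by
  obtain ⟨C0, t0, hC0, ht0, hV⟩ := hV η hη
  by_cases hη1 : η ≤ 1 - η
  swap
  · refine ⟨1, 1, one_pos, one_pos, fun β _ p h1 h2 => ?_⟩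
    exact absurd (h1.trans h2) hη1
  obtain ⟨m, hm⟩ : ∃ m : ℝ, m = 1 - (1 - η) ^ 2 := ⟨_, rfl⟩
  have hm0 : 0 < m := by
    have e : m = η * (2 - η) := by rw [hm]; ring
    rw [e]
    exact mul_pos hη (by linarith)
  obtain ⟨C1, hC1⟩ : ∃ C1 : ℝ, C1 = C0 / m := ⟨_, rfl⟩
  have hC1p : 0 < C1 := by rw [hC1]; positivity
  obtain ⟨K, hK⟩ : ∃ K : ℝ, K = ((m⁻¹) ^ 2 + 1 + C1 * t0 ^ 2) / t0 := ⟨_, rfl⟩
  have hKp : 0 < K := by rw [hK]; positivity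
  obtain ⟨C2, hC2⟩ : ∃ C2 : ℝ, C2 = C1 + K := ⟨_, rfl⟩
  have hC2p : 0 < C2 := by rw [hC2]; positivity
  obtain ⟨C3, hC3⟩ : ∃ C3 : ℝ, C3 = κ * (C2 + 4 * C2 ^ 2) + κ * C2 := ⟨_, rfl⟩
  have hC3p : 0 ≤ C3 := by rw [hC3]; positivity
  obtain ⟨C4, hC4⟩ : ∃ C4 : ℝ, C4 = C3 + 4 * C3 ^ 2 := ⟨_, rfl⟩
  have hC4p : 0 ≤ C4 := by rw [hC4]; positivity
  obtain ⟨t1, ht1⟩ : ∃ t1 : ℝ, t1 = min t0 (min 1 (1 / (4 * (C2 + C3 + 1)))) := ⟨_, rfl⟩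
  have ht1p : 0 < t1 := by
    rw [ht1]
    refine lt_min ht0 (lt_min one_pos ?_)
    positivity
  have hNge : ∀ {β : ℂ → ℂ}, Ext β → ∀ z : ℂ, ‖z‖ ≤ 1 - η → m ≤ ‖N β z‖ := by
    intro β hβ z hz
    have h1 := N_ge hβ (z := z) (by linarith)
    have h2 : ‖z‖ ^ 2 ≤ (1 - η) ^ 2 := by
      have := norm_nonneg z
      gcongr
    linarith
  have hNle : ∀ {β : ℂ → ℂ}, Ext β → ∀ z : ℂ, ‖z‖ ≤ 1 - η → ‖N β z‖ ≤ m⁻¹ := by
    intro β hβ z hz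
    have h1 := N_le hβ (z := z) (by linarith)
    have h2 : ‖z‖ ^ 2 ≤ (1 - η) ^ 2 := by
      have := norm_nonneg z
      gcongr
    refine h1.trans ?_
    gcongr
    linarith
  -- uniform bound of the variation
  have hbd : ∀ β, Ext β → ∀ p : ℂ, η ≤ ‖p‖ → ‖p‖ ≤ 1 - η → ∀ B : ℂ, ‖B‖ ≤ 1 →
      ∀ z : ℂ, η ≤ ‖z‖ → ‖z‖ ≤ 1 - η → η ≤ ‖z - p‖ → ‖dl β p B z‖ ≤ K := by
    intro β hβ p hp hp1 B hB z hz hz1 hzp
    have hτ : ‖(t0 : ℂ) * B‖ ≤ t0 := norm_smul_le ht0 hB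
    obtain ⟨γ, hγ, h1⟩ := hV β hβ p hp hp1 (t0 * B) hτ
    have h2 := expand_one hβ hγ hm0 (hNge hβ z hz1) hη hp hp1 hz hz1 hzp (h1 z hz hz1 hzp)
    rw [dl_smul] at h2
    have h3 : ‖(t0 : ℂ) * B‖ ^ 2 ≤ t0 ^ 2 := by gcongr
    have h4 : ‖N γ z / N β z - 1 - t0 * dl β p B z‖ ≤ C1 * t0 ^ 2 := by
      refine h2.trans ?_
      rw [← hC1]
      gcongr
    have h5 : ‖N γ z / N β z‖ ≤ (m⁻¹) ^ 2 := by
      rw [norm_div]
      calc ‖N γ z‖ / ‖N β z‖ ≤ m⁻¹ / m := by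
            have a1 := hNle hγ z hz1
            have a2 := hNge hβ z hz1
            gcongr
        _ = _ := by field_simp
    have h6 : ‖(t0 : ℂ) * dl β p B z‖ ≤ (m⁻¹) ^ 2 + 1 + C1 * t0 ^ 2 := by
      have e : (t0 : ℂ) * dl β p B z = N γ z / N β z - 1 -
          (N γ z / N β z - 1 - t0 * dl β p B z) := by ring
      rw [e]
      refine (norm_sub_le _ _).trans ?_
      have := norm_sub_le (N γ z / N β z) 1
      rw [norm_one] at this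
      linarith
    rw [norm_mul, Complex.norm_real, Real.norm_eq_abs, abs_of_pos ht0] at h6
    rw [hK, le_div_iff₀ ht0]
    linarith
  refine ⟨K + (m⁻¹) ^ κ * C4 + 1, t1, by positivity, ht1p, fun β hβ p hp hp1 B hB => ⟨?_, ?_⟩⟩
  · intro z hz hz1 hzp
    have := hbd β hβ p hp hp1 B hB z hz hz1 hzp
    have h2 : 0 ≤ (m⁻¹) ^ κ * C4 := by positivity
    linarith
  intro t ht htt
  rw [ht1] at htt
  have ht0' : t ≤ t0 := htt.trans (min_le_left _ _)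
  have ht1' : t ≤ 1 := htt.trans ((min_le_right _ _).trans (min_le_left _ _))
  have ht2' : t ≤ 1 / (4 * (C2 + C3 + 1)) :=
    htt.trans ((min_le_right _ _).trans (min_le_right _ _))
  have ht3 : 4 * (C2 + C3 + 1) * t ≤ 1 := by
    rw [le_div_iff₀ (by positivity)] at ht2'
    linarith
  have hτ : ‖(t : ℂ) * B‖ ≤ t := norm_smul_le ht hB
  obtain ⟨γ, hγ, h1⟩ := hV β hβ p hp hp1 (t * B) (hτ.trans ht0')
  refine ⟨γ, hγ, fun z hz hz1 hzp => ?_⟩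
  have h2 := expand_one hβ hγ hm0 (hNge hβ z hz1) hη hp hp1 hz hz1 hzp (h1 z hz hz1 hzp)
  rw [dl_smul] at h2
  have h3 : ‖(t : ℂ) * B‖ ^ 2 ≤ t ^ 2 := by gcongr
  have h4 : ‖N γ z / N β z - 1 - t * dl β p B z‖ ≤ C2 * t ^ 2 := by
    refine h2.trans ?_
    have a1 : C1 ≤ C2 := by linarith
    calc C0 / m * ‖(t : ℂ) * B‖ ^ 2 ≤ C1 * t ^ 2 := by rw [← hC1]; gcongr
      _ ≤ C2 * t ^ 2 := by gcongr
  have h5 := hbd β hβ p hp hp1 B hB z hz hz1 hzp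
  have hβN : N β z ≠ 0 := hβ.ne z (by simp; linarith)
  have hγN : N γ z ≠ 0 := hγ.ne z (by simp; linarith)
  have hβn : 0 < ‖N β z‖ := norm_pos_iff.mpr hβN
  have hγn : 0 < ‖N γ z‖ := norm_pos_iff.mpr hγN
  have habs : |t| = t := abs_of_pos ht
  have hsm2 : 4 * (C2 + 1) * t ≤ 1 := by
    have : 4 * (C2 + 1) * t ≤ 4 * (C2 + C3 + 1) * t := by gcongr; linarith
    linarith
  have hsm3 : 4 * (C3 + 1) * t ≤ 1 := by
    have : 4 * (C3 + 1) * t ≤ 4 * (C2 + C3 + 1) * t := by gcongr; linarith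
    linarith
  have h6 := log_norm_expand (C := C2) (t := t) (z := N γ z / N β z) (u := dl β p B z)
    hC2p.le (by linarith) h4 (by rw [habs]; exact ht1') (by rw [habs]; exact hsm2)
  have h7 : |-κ * Real.log ‖N γ z / N β z‖ - t * (-κ * (dl β p B z).re)| ≤ C3 * t ^ 2 := by
    have e : -κ * Real.log ‖N γ z / N β z‖ - t * (-κ * (dl β p B z).re) =
        -κ * (Real.log ‖N γ z / N β z‖ - t * (dl β p B z).re) := by ring
    rw [e, abs_mul, abs_neg, abs_of_nonneg hκ]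
    calc κ * |Real.log ‖N γ z / N β z‖ - t * (dl β p B z).re| ≤
          κ * ((C2 + 4 * C2 ^ 2) * t ^ 2) := by gcongr
      _ = (κ * (C2 + 4 * C2 ^ 2)) * t ^ 2 := by ring
      _ ≤ C3 * t ^ 2 := by
          have : 0 ≤ κ * C2 := by positivity
          gcongr
          linarith
  have h8 : |(-κ * (dl β p B z).re)| ≤ C3 := by
    rw [abs_mul, abs_neg, abs_of_nonneg hκ]
    have a1 : |(dl β p B z).re| ≤ C2 := (Complex.abs_re_le_norm _).trans (by linarith)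
    have a2 : κ * |(dl β p B z).re| ≤ κ * C2 := by gcongr
    have a3 : 0 ≤ κ * (C2 + 4 * C2 ^ 2) := by positivity
    rw [hC3]
    linarith
  have h9 := exp_expand (C := C3) hC3p h8 h7 (by rw [habs]; exact ht1') (by rw [habs]; exact hsm3)
  have h10 : ‖N γ z‖ ^ (-κ) = ‖N β z‖ ^ (-κ) * Real.exp (-κ * Real.log ‖N γ z / N β z‖) := by
    rw [norm_div, Real.log_div hγn.ne' hβn.ne', Real.rpow_def_of_pos hγn,
      Real.rpow_def_of_pos hβn, ← Real.exp_add]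
    congr 1
    ring
  have h11 : ‖N γ z‖ ^ (-κ) - ‖N β z‖ ^ (-κ) + t * (κ * ‖N β z‖ ^ (-κ) * (dl β p B z).re) =
      ‖N β z‖ ^ (-κ) * (Real.exp (-κ * Real.log ‖N γ z / N β z‖) - 1 -
        t * (-κ * (dl β p B z).re)) := by
    rw [h10]; ring
  rw [h11, abs_mul, abs_of_nonneg (Real.rpow_nonneg (norm_nonneg _) _)]
  have h12 : ‖N β z‖ ^ (-κ) ≤ (m⁻¹) ^ κ := by
    rw [Real.rpow_neg (norm_nonneg _), ← Real.inv_rpow (norm_nonneg _)]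
    have a2 := hNge hβ z hz1
    gcongr
  calc ‖N β z‖ ^ (-κ) * |Real.exp (-κ * Real.log ‖N γ z / N β z‖) - 1 -
        t * (-κ * (dl β p B z).re)| ≤ (m⁻¹) ^ κ * (C4 * t ^ 2) := by
          rw [← hC4] at h9
          gcongr
    _ = ((m⁻¹) ^ κ * C4) * t ^ 2 := by ring
    _ ≤ (K + (m⁻¹) ^ κ * C4 + 1) * t ^ 2 := by
        gcongr
        linarith

end

end Pool.Agent.Helper27.CK
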