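import Pool.Agent.Helper27.CK.DJ2
import Pool.Agent.Helper27.CK.Exp
import Pool.Agent.Helper28.EK.E6d

/-!
Project CK: near-maximisers of the localised window functional are nearly critical.
-/

set_option autoImplicit false

open Complex MeasureTheory Metric Set Filter Topology
open scoped Real ComplexConjugate

namespace Pool.Agent.Helper27.CK

open Pool.Agent.Helper39.Area Pool.Agent.Helper5.CK Pool.Agent.Helper39.EK
open Pool.Agent.Helper52.EK hiding Rect
open Pool.Agent.Helper14.CK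
open Pool.Agent.Helper28.EK (scale_ExtR scale_N)

noncomputable section

variable {a b κ : ℝ} {om om' u u' : ℝ → ℝ}

theorem exp_neg_lt {a : ℝ} (ha : 0 < a) : Real.exp (-a) < 1 := by
  rw [← Real.exp_zero]
  exact Real.exp_lt_exp.mpr (by linarith)

theorem cFF {β : ℂ → ℂ} (h : Ext β) (ha : 0 < a) (κ : ℝ) : ContinuousOn (FF κ β) (Rect a b) := by
  have hb : DifferentiableOn ℂ (deriv β) (ball 0 1) := h.diff.deriv isOpen_ball
  have h1 : ContinuousOn (N β) (An a b) := by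
    unfold N
    exact (continuousOn_const.sub ((continuousOn_id.pow 2).mul hb.continuousOn)).mono
      fun z hz => An_ball ha hz
  have h2 : ContinuousOn (fun z => ‖N β z‖ ^ (-κ)) (An a b) :=
    h1.norm.rpow_const fun z hz => Or.inl (norm_ne_zero_iff.mpr (h.ne z (An_ball ha hz)))
  exact contRect h2

theorem cW (W : Wt2 om om' a b u u') :
    ContinuousOn (fun p : ℝ × ℝ => om p.1 * u p.2) (Rect a b) :=
  (((W.c_om.comp continuous_fst).mul (W.c_u.comp continuous_snd))).continuousOn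

/-- the total weight -/
def MW (om u : ℝ → ℝ) (a b : ℝ) : ℝ := ∫ p in Rect a b, om p.1 * u p.2

theorem MW_nonneg (W : Wt2 om om' a b u u') : 0 ≤ MW om u a b :=
  setIntegral_nonneg (measurableSet_rect a b) fun _ _ => mul_nonneg (W.om_nn _) (W.u_nn _)

theorem FF_nonneg (κ : ℝ) (β : ℂ → ℂ) (p : ℝ × ℝ) : 0 ≤ FF κ β p :=
  Real.rpow_nonneg (norm_nonneg _) _

theorem FF_le {β : ℂ → ℂ} (h : Ext β) (ha : 0 < a) (hκ : 0 ≤ κ) {p : ℝ × ℝ}
    (hp : p ∈ Rect a b) : FF κ β p ≤ ((1 - Real.exp (-a) ^ 2)⁻¹) ^ κ := by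
  have hz := ep_mem_An hp
  have h1 := N_ge h (z := ep (-p.1) p.2) (by simpa using An_ball ha hz)
  have h2 : ‖ep (-p.1) p.2‖ ^ 2 ≤ Real.exp (-a) ^ 2 := by
    have := hz.2
    gcongr
  have h3 := exp_neg_lt ha
  have h4 : 0 < 1 - Real.exp (-a) ^ 2 := by nlinarith [Real.exp_pos (-a)]
  unfold FF
  rw [Real.rpow_neg (norm_nonneg _), ← Real.inv_rpow (norm_nonneg _)]
  have h5 : 1 - Real.exp (-a) ^ 2 ≤ ‖N β (ep (-p.1) p.2)‖ := by linarith
  gcongr

theorem J_nonneg (W : Wt2 om om' a b u u') (κ : ℝ) (β : ℂ → ℂ) : 0 ≤ J κ om u a b β :=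
  setIntegral_nonneg (measurableSet_rect a b) fun _ _ =>
    mul_nonneg (mul_nonneg (W.om_nn _) (W.u_nn _)) (FF_nonneg _ _ _)

theorem J_le (W : Wt2 om om' a b u u') (hκ : 0 ≤ κ) {β : ℂ → ℂ} (h : Ext β) :
    J κ om u a b β ≤ ((1 - Real.exp (-a) ^ 2)⁻¹) ^ κ * MW om u a b := by
  unfold J MW
  rw [← integral_const_mul]
  refine setIntegral_mono_on (integrableOn_rect ((cW W).mul (cFF h W.a_pos κ)))
    (integrableOn_rect (continuousOn_const.mul (cW W))) (measurableSet_rect a b) ?_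
  intro p hp
  have h1 := FF_le h W.a_pos hκ hp
  have h2 : 0 ≤ om p.1 * u p.2 := mul_nonneg (W.om_nn _) (W.u_nn _)
  calc om p.1 * u p.2 * FF κ β p ≤ om p.1 * u p.2 * ((1 - Real.exp (-a) ^ 2)⁻¹) ^ κ := by gcongr
    _ = _ := by ring

/-- uniform expansion of the functional -/
theorem J_expand (hV : Variation) (hκ : 0 ≤ κ) (W : Wt2 om om' a b u u') :
    ∃ C t1 : ℝ, 0 < C ∧ 0 < t1 ∧ ∀ β, Ext β → ∀ z0 : ℂ, Real.exp (-1) ≤ ‖z0‖ →
      ‖z0‖ ≤ Real.exp (-2 * b) → ∀ B : ℂ, ‖B‖ ≤ 1 → ∀ t : ℝ, 0 < t → t ≤ t1 →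
      ∃ γ, Ext γ ∧
        |J κ om u a b γ - J κ om u a b β - t * (B * EE κ om om' u u' a b β z0).re| ≤
          C * t ^ 2 := by
  have ha := W.a_pos
  have hab := W.a_lt
  have hb : 0 < b := ha.trans hab
  have e1 : Real.exp (-2 * b) < Real.exp (-b) := Real.exp_lt_exp.mpr (by linarith)
  have e2 := exp_neg_lt ha
  have e3 : Real.exp (-b) ≤ Real.exp (-a) := Real.exp_le_exp.mpr (by linarith)
  obtain ⟨η, hη⟩ : ∃ η : ℝ, η = min (Real.exp (-1)) (min (Real.exp (-b))
    (min (1 - Real.exp (-a)) (Real.exp (-b) - Real.exp (-2 * b)))) := ⟨_, rfl⟩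
  have hη0 : 0 < η := by
    rw [hη]
    refine lt_min (Real.exp_pos _) (lt_min (Real.exp_pos _) (lt_min ?_ ?_)) <;> linarith
  have hη1 : η ≤ Real.exp (-1) := by rw [hη]; exact min_le_left _ _
  have hη2 : η ≤ Real.exp (-b) := by
    rw [hη]; exact (min_le_right _ _).trans (min_le_left _ _)
  have hη3 : η ≤ 1 - Real.exp (-a) := by
    rw [hη]; exact (min_le_right _ _).trans ((min_le_right _ _).trans (min_le_left _ _))
  have hη4 : η ≤ Real.exp (-b) - Real.exp (-2 * b) := by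
    rw [hη]; exact (min_le_right _ _).trans ((min_le_right _ _).trans (min_le_right _ _))
  obtain ⟨C, t1, hC, ht1, hE⟩ := expand hV hκ hη0
  have hM := MW_nonneg W
  refine ⟨C * MW om u a b + 1, t1, by positivity, ht1, ?_⟩
  intro β hβ z0 hz0 hz0' B hB t ht htt
  have hg : Geo a b β z0 := ⟨hβ, ha, norm_pos_iff.mp ((Real.exp_pos _).trans_le hz0),
    by linarith, hab.le⟩
  obtain ⟨-, h2⟩ := hE β hβ z0 (hη1.trans hz0) (by linarith) B hB
  obtain ⟨γ, hγ, h3⟩ := h2 t ht htt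
  refine ⟨γ, hγ, ?_⟩
  have h4 := dJ_eq hg W κ B
  have cdl : ContinuousOn (fun p : ℝ × ℝ => (dl β z0 B (ep (-p.1) p.2)).re) (Rect a b) := by
    refine Complex.continuous_re.comp_continuousOn (contRect (g := dl β z0 B) ?_)
    unfold dl
    have c1 : ContinuousOn (fun z => eps β z0 B / (phi β z - phi β z0) ^ 2) (An a b) :=
      continuousOn_const.div ((hg.cphi.sub continuousOn_const).pow 2)
        fun z hz => pow_ne_zero 2 (hg.phi_ne hz)
    have c2 := hg.cq
    unfold qN at c2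
    exact (((c1.neg.add ((hg.ch B).mul c2)).sub (hg.ch B)).add
      (continuousOn_id.mul (hg.chd B))).sub continuousOn_const
  have cγ := cFF (b := b) hγ ha κ
  have cβ := cFF (b := b) hβ ha κ
  have h5 : J κ om u a b γ - J κ om u a b β - t * (B * EE κ om om' u u' a b β z0).re =
      ∫ p in Rect a b, om p.1 * u p.2 * (FF κ γ p - FF κ β p +
        t * (κ * FF κ β p * (dl β z0 B (ep (-p.1) p.2)).re)) := by
    have i1 : IntegrableOn (fun p : ℝ × ℝ => om p.1 * u p.2 * FF κ γ p) (Rect a b) :=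
      integrableOn_rect ((cW W).mul cγ)
    have i2 : IntegrableOn (fun p : ℝ × ℝ => om p.1 * u p.2 * FF κ β p) (Rect a b) :=
      integrableOn_rect ((cW W).mul cβ)
    have i3 : IntegrableOn (fun p : ℝ × ℝ => om p.1 * u p.2 *
        (FF κ β p * (dl β z0 B (ep (-p.1) p.2)).re)) (Rect a b) :=
      integrableOn_rect ((cW W).mul (cβ.mul cdl))
    rw [← h4]
    unfold J
    rw [← mul_assoc, ← integral_const_mul, ← integral_sub i1 i2, ← integral_sub]
    · refine setIntegral_congr_fun (measurableSet_rect a b) fun p _ => ?_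
      ring
    · exact i1.sub i2
    · exact i3.const_mul _
  rw [h5, ← Real.norm_eq_abs]
  have h6 : ‖∫ p in Rect a b, om p.1 * u p.2 * (FF κ γ p - FF κ β p +
        t * (κ * FF κ β p * (dl β z0 B (ep (-p.1) p.2)).re))‖ ≤
      ∫ p in Rect a b, (C * t ^ 2) * (om p.1 * u p.2) := by
    refine norm_integral_le_of_norm_le
      (integrableOn_rect (continuousOn_const.mul (cW W))) ?_
    filter_upwards [ae_restrict_mem (measurableSet_rect a b)] with p hp
    have hz := ep_mem_An hp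
    have h7 := h3 (ep (-p.1) p.2) (hη2.trans hz.1) (by linarith [hz.2]) (by
      have := norm_sub_norm_le (ep (-p.1) p.2) z0
      linarith [hz.1])
    have hw : 0 ≤ om p.1 * u p.2 := mul_nonneg (W.om_nn _) (W.u_nn _)
    rw [norm_mul, Real.norm_of_nonneg hw, Real.norm_eq_abs]
    calc om p.1 * u p.2 * |FF κ γ p - FF κ β p +
        t * (κ * FF κ β p * (dl β z0 B (ep (-p.1) p.2)).re)| ≤
          om p.1 * u p.2 * (C * t ^ 2) := by gcongr; exact h7
      _ = _ := by ring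
  refine h6.trans ?_
  rw [integral_const_mul]
  have : 0 ≤ t ^ 2 := sq_nonneg t
  unfold MW
  nlinarith

/-- dilation -/
theorem J_scale (hκ : 0 ≤ κ) (W : Wt2 om om' a b u u') {β : ℂ → ℂ} (h : Ext β) {δ : ℝ}
    (hδ : 0 < δ) : ∃ (γ : ℂ → ℂ) (R : ℝ), ExtR γ R ∧ J κ om u a b β - δ < J κ om u a b γ := by
  have ha := W.a_pos
  have hbc : ContinuousOn (N β) (ball 0 1) := by
    have hb : DifferentiableOn ℂ (deriv β) (ball 0 1) := h.diff.deriv isOpen_ball
    unfold N
    exact continuousOn_const.sub ((continuousOn_id.pow 2).mul hb.continuousOn)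
  have key : Tendsto (fun r : ℝ => J κ om u a b (fun z => (r : ℂ) * β (r * z))) (𝓝[<] 1)
      (𝓝 (J κ om u a b β)) := by
    unfold J
    have hev : ∀ᶠ r : ℝ in 𝓝[<] 1, 0 < r ∧ r < 1 := by
      filter_upwards [self_mem_nhdsWithin, mem_nhdsWithin_of_mem_nhds (lt_mem_nhds one_pos)] with
        r h1 h2
      exact ⟨h2, h1⟩
    refine tendsto_integral_filter_of_dominated_convergence
      (fun p => ((1 - Real.exp (-a) ^ 2)⁻¹) ^ κ * (om p.1 * u p.2)) ?_ ?_ ?_ ?_
    · filter_upwards [hev] with r hr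
      exact (integrableOn_rect ((cW W).mul
        (cFF (scale_ExtR h hr.1 hr.2).toExt ha κ))).aestronglyMeasurable
    · filter_upwards [hev] with r hr
      filter_upwards [ae_restrict_mem (measurableSet_rect a b)] with p hp
      have h1 := FF_le (scale_ExtR h hr.1 hr.2).toExt ha hκ hp
      have hw : 0 ≤ om p.1 * u p.2 := mul_nonneg (W.om_nn _) (W.u_nn _)
      rw [Real.norm_of_nonneg (mul_nonneg hw (FF_nonneg _ _ _)), mul_comm]
      gcongr
    · exact integrableOn_rect (continuousOn_const.mul (cW W))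
    · filter_upwards [ae_restrict_mem (measurableSet_rect a b)] with p hp
      have hz := An_ball ha (ep_mem_An hp)
      refine Tendsto.const_mul _ ?_
      have h1 : ∀ᶠ r : ℝ in 𝓝[<] 1, ‖N β ((r : ℂ) * ep (-p.1) p.2)‖ ^ (-κ) =
          FF κ (fun z => (r : ℂ) * β (r * z)) p := by
        filter_upwards [hev] with r hr
        unfold FF
        rw [scale_N h.diff]
        rw [mem_ball_zero_iff, norm_mul, Complex.norm_real, Real.norm_eq_abs, abs_of_pos hr.1]
        have h2 : ‖ep (-p.1) p.2‖ < 1 := by simpa using hz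
        nlinarith [norm_nonneg (ep (-p.1) p.2), hr.1, hr.2]
      refine Tendsto.congr' h1 ?_
      have h2 : Tendsto (fun r : ℝ => (r : ℂ) * ep (-p.1) p.2) (𝓝[<] 1) (𝓝 (ep (-p.1) p.2)) := by
        have h3 : Continuous fun r : ℝ => (r : ℂ) * ep (-p.1) p.2 := by fun_prop
        have h4 := h3.tendsto 1
        rw [Complex.ofReal_one, one_mul] at h4
        exact h4.mono_left nhdsWithin_le_nhds
      have h5 : ContinuousAt (N β) (ep (-p.1) p.2) := hbc.continuousAt (isOpen_ball.mem_nhds hz)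
      have h6 := (h5.tendsto.comp h2).norm
      exact h6.rpow_const (Or.inl (norm_ne_zero_iff.mpr (h.ne _ hz)))
  have h1 : ∀ᶠ r : ℝ in 𝓝[<] 1, J κ om u a b β - δ <
      J κ om u a b (fun z => (r : ℂ) * β (r * z)) :=
    key.eventually (lt_mem_nhds (by linarith))
  have hev : ∀ᶠ r : ℝ in 𝓝[<] 1, 0 < r ∧ r < 1 := by
    filter_upwards [self_mem_nhdsWithin, mem_nhdsWithin_of_mem_nhds (lt_mem_nhds one_pos)] with
      r h1 h2
    exact ⟨h2, h1⟩
  obtain ⟨r, hr1, hr2⟩ := (h1.and hev).exists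
  exact ⟨_, _, scale_ExtR h hr2.1 hr2.2, hr1⟩

theorem Ext_zero : Ext (fun _ => (0 : ℂ)) := by
  refine ⟨differentiableOn_const _, ?_, ?_⟩
  · intro ζ ω _ _ _ _ h
    simpa using h
  · intro ζ _
    simp

/-- near-maximisers are nearly critical -/
theorem near (hV : Variation) (hκ : 0 ≤ κ) (W : Wt2 om om' a b u u') {η : ℝ} (hη : 0 < η) :
    ∃ (β : ℂ → ℂ) (R : ℝ), ExtR β R ∧
      (∀ γ : ℂ → ℂ, Ext γ → (1 - η) * J κ om u a b γ ≤ J κ om u a b β) ∧
      ∀ z0 : ℂ, Real.exp (-1) ≤ ‖z0‖ → ‖z0‖ ≤ Real.exp (-2 * b) →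
        ‖EE κ om om' u u' a b β z0‖ ≤ η := by
  obtain ⟨C, t1, hC, ht1, hE⟩ := J_expand hV hκ W
  set T : Set ℝ := {y | ∃ β, Ext β ∧ J κ om u a b β = y} with hT
  have hTb : BddAbove T := by
    refine ⟨((1 - Real.exp (-a) ^ 2)⁻¹) ^ κ * MW om u a b, ?_⟩
    rintro y ⟨β, hβ, rfl⟩
    exact J_le W hκ hβ
  have hTn : T.Nonempty := ⟨_, _, Ext_zero, rfl⟩
  set S := sSup T with hS
  have hSle : ∀ γ, Ext γ → J κ om u a b γ ≤ S := fun γ hγ => le_csSup hTb ⟨γ, hγ, rfl⟩
  have hS0 : 0 ≤ S := (J_nonneg W κ _).trans (hSle _ Ext_zero)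
  -- choice of the defect
  obtain ⟨s, hs⟩ : ∃ s : ℝ, s = min t1 (η / (1 + C)) := ⟨_, rfl⟩
  have hs0 : 0 < s := by rw [hs]; exact lt_min ht1 (by positivity)
  have hst : s ≤ t1 := by rw [hs]; exact min_le_left _ _
  have hsη : (1 + C) * s ≤ η := by
    have : s ≤ η / (1 + C) := by rw [hs]; exact min_le_right _ _
    rw [le_div_iff₀ (by positivity)] at this
    linarith
  obtain ⟨δ, hδ⟩ : ∃ δ : ℝ, δ = if 0 < S then min (s ^ 2) (η * S) else s ^ 2 := ⟨_, rfl⟩
  have hδ0 : 0 < δ := by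
    rw [hδ]
    split_ifs with h
    · exact lt_min (by positivity) (by positivity)
    · positivity
  have hδs : δ ≤ s ^ 2 := by
    rw [hδ]
    split_ifs with h
    · exact min_le_left _ _
    · exact le_rfl
  obtain ⟨y, ⟨β₀, hβ₀, rfl⟩, hy⟩ := exists_lt_of_lt_csSup hTn (show S - δ / 2 < S by linarith)
  obtain ⟨β, R, hβR, hβ⟩ := J_scale hκ W hβ₀ (δ := δ / 2) (by linarith)
  have hβE := hβR.toExt
  have hJβ : S - δ < J κ om u a b β := by linarith
  refine ⟨β, R, hβR, ?_, ?_⟩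
  · intro γ hγ
    have h1 := hSle γ hγ
    have h0 := J_nonneg W κ γ
    have hb0 := J_nonneg W κ β
    by_cases hη1 : η ≤ 1
    · by_cases hSp : 0 < S
      · have h2 : δ ≤ η * S := by
          rw [hδ, if_pos hSp]
          exact min_le_right _ _
        have h3 : (1 - η) * J κ om u a b γ ≤ (1 - η) * S :=
          mul_le_mul_of_nonneg_left h1 (by linarith)
        linarith
      · have h2 : J κ om u a b γ = 0 := le_antisymm (h1.trans (not_lt.mp hSp)) h0
        rw [h2, mul_zero]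
        exact hb0
    · have h2 : (1 - η) * J κ om u a b γ ≤ 0 :=
        mul_nonpos_of_nonpos_of_nonneg (by linarith [not_le.mp hη1]) h0
      linarith
  · intro z0 h1 h2
    set E := EE κ om om' u u' a b β z0 with hEd
    by_cases hE0 : E = 0
    · rw [hE0, norm_zero]
      exact hη.le
    have hEn : 0 < ‖E‖ := norm_pos_iff.mpr hE0
    have hB1 : ‖conj E / (‖E‖ : ℂ)‖ ≤ 1 := by
      rw [norm_div, RCLike.norm_conj, Complex.norm_real, Real.norm_eq_abs, abs_of_pos hEn,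
        div_self hEn.ne']
    obtain ⟨γ, hγ, h3⟩ := hE β hβE z0 h1 h2 (conj E / (‖E‖ : ℂ)) hB1 s hs0 hst
    rw [← hEd] at h3
    have h4 : (conj E / (‖E‖ : ℂ) * E).re = ‖E‖ := by
      have e1 : conj E / (‖E‖ : ℂ) * E = ((‖E‖ : ℝ) : ℂ) := by
        have e2 : conj E * E = ((‖E‖ ^ 2 : ℝ) : ℂ) := by
          rw [← Complex.normSq_eq_conj_mul_self, Complex.normSq_eq_norm_sq]
        have e3 : (‖E‖ : ℂ) ≠ 0 := by exact_mod_cast hEn.ne'
        rw [div_mul_eq_mul_div, e2]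
        field_simp
        push_cast
        ring
      rw [e1, Complex.ofReal_re]
    rw [h4] at h3
    have h5 := hSle γ hγ
    have h6 := (abs_le.mp h3).1
    have h7 : s * ‖E‖ ≤ δ + C * s ^ 2 := by linarith
    have h8 : s * ‖E‖ ≤ s * ((1 + C) * s) := by nlinarith
    have h9 := le_of_mul_le_mul_left h8 hs0
    exact h9.trans hsη

end

end Pool.Agent.Helper27.CK
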